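import Pool.Agent.Helper76.CQ.Defs

/-!
# Stubs of project CQ (statements only, to be proved in separate files)
-/

namespace Pool.Agent.Helper76.CQ.St

open MvPolynomial Pool.Agent.Helper76.CY Pool.Agent.Helper76.CQ Filter Topology

/-! ## CQ-1: one step of the self-map on arcs with respect to an ideal -/

theorem step_arcM {K O : Type*} [Field K] [CharZero K] [CommRing O] [Algebra K O] (t : O)
    (m : Ideal O) (htm : t ∈ m)
    (hU : ∀ (x : O) (c : K), c ≠ 0 → x - algebraMap K O c ∈ m → IsUnit x)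
    (S : Subring O) (hS : ∀ x ∈ S, ∀ y : O, x * y = 1 → y ∈ S)
    (D : Ten K) (hDS : ∀ i j k, algebraMap K O (D i j k) ∈ S) (hD : Window D)
    (τ τ' : Idx → K) (hτ : IsStep D τ τ') (a : Idx → O) (ha : ArcM t m S D τ a) :
    ∃ a' : Idx → O, ArcM t m S (shift D) τ' a' := by
  sorry

/-! ## CQ-2: the tangent vector of an arc; values of polynomials on an arc -/

theorem ArcM.tan {K O : Type*} [Field K] [CommRing O] [IsDomain O] [Algebra K O] {t : O}
    (ht0 : t ≠ 0) {m : Ideal O} (htm : t ∈ m) (h1 : (1 : O) ∉ m) {S : Subring O} {D : Ten K}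
    (hD : Window D) {τ : Idx → K} {a : Idx → O} (ha : ArcM t m S D τ a) : τ ∈ tanSp D := by
  sorry

theorem arc_evalM {ι K O : Type*} [Field K] [CommRing O] [Algebra K O] (t : O) (m : Ideal O)
    (htm : t ∈ m) (τ : ι → K) (a : ι → O)
    (ha : ∀ q, a q - t * algebraMap K O (τ q) ∈ Ideal.span {t} * m) (d : ℕ)
    (g : MvPolynomial ι K) (hg : g ∈ idealOfVars ι K ^ d) :
    aeval a g - t ^ d * algebraMap K O (eval τ (homogeneousComponent d g)) ∈
      Ideal.span {t ^ d} * m := by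
  sorry

/-! ## CQ-3: the ring of bounded germs -/

theorem zer_prime : Zer.IsPrime := by
  sorry

theorem sm_unit (x : GO) (c : ℚ_[2]) (hc : c ≠ 0) (h : x - algebraMap ℚ_[2] GO c ∈ sm) :
    IsUnit x := by
  sorry

theorem one_notMem_sm : (1 : GO) ∉ sm := by
  sorry

theorem rat_inv (L : ℕ → Subfield ℚ_[2]) (x : GO) (hx : x ∈ rat L) (y : GO) (h : x * y = 1) :
    y ∈ rat L := by
  sorry

theorem rat_cst (L : ℕ → Subfield ℚ_[2]) (c : ℚ_[2]) (hc : ∀ m, c ∈ L m) :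
    algebraMap ℚ_[2] GO c ∈ rat L := by
  sorry

/-! ## CQ-4: the arc of a sequence of planes -/

theorem germ_arc (L : ℕ → Subfield ℚ_[2]) (x : ℕ → Idx → ℚ_[2]) (hL : ∀ n q, x n q ∈ L n)
    (h0 : ∀ n, x n ≠ 0) (hx : Tendsto x atTop (𝓝 0)) (D : Ten ℚ_[2]) (hpl : ∀ n, Pl D (x n)) :
    ∃ (t : GO) (w : Idx → ℚ_[2]) (a : Idx → GO), t ≠ 0 ∧ t ∈ sm ∧ ‖w‖ = 1 ∧
      ArcM t sm (rat L) D w a ∧
      ∀ b : Idx → GO, (∀ q, b q ∈ rat L) → ∃ y : ℕ → Idx → ℚ_[2], (∀ n q, y n q ∈ L n) ∧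
        (∀ f : MvPolynomial Idx ℚ_[2], aeval b f = 0 ↔
          ∀ᶠ n in (UU : Filter ℕ), eval (y n) f = 0) ∧
        ∀ w' : Idx → ℚ_[2], w' ≠ 0 →
          (∀ q, b q - t * algebraMap ℚ_[2] GO (w' q) ∈ Ideal.span {t} * sm) →
          ∀ᶠ n in (UU : Filter ℕ), ‖y n‖ = ‖x n‖ * ‖w'‖ := by
  sorry

/-! ## CQ-5: the differential -/

theorem step_inj {K : Type*} [Field K] [CharZero K] (D : Ten K) (hD : Window D) (τ : Idx → K)
    (hτ : τ ∈ tanSp D) (h : IsStep D τ 0) : τ = 0 := by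
  sorry

theorem step_tan {K : Type*} [Field K] [CharZero K] (D : Ten K) (hD : Window D)
    (τ τ' : Idx → K) (h : IsStep D τ τ') (i j k : Fin 3) :
    tanVal (shift D) τ' i j k =
      if i = 2 ∨ j = 2 ∨ k = 2 then 0 else tanVal D τ (i + 1) (j + 1) (k + 1) := by
  sorry

theorem step_unique {K : Type*} [Field K] [CharZero K] (D : Ten K) (hD : Window D)
    (τ τ₁ τ₂ : Idx → K) (h₁ : IsStep D τ τ₁) (h₂ : IsStep D τ τ₂) : τ₁ = τ₂ := by
  sorry

theorem exists_Bmap : ∃ B : Ten ℚ_[2] → ((Idx → ℚ_[2]) →ₗ[ℚ_[2]] (Idx → ℚ_[2])),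
    (∀ D, Window D → ∀ τ, IsStep D τ (B D τ)) ∧
      ∀ D, Window D → ∀ p q, ContinuousAt (fun D' => B D' (Pi.single q 1) p) D := by
  sorry

/-! ## CQ-6: the tangent space and the characteristic polynomial -/

theorem finrank_tanSp {K : Type*} [Field K] [CharZero K] (D : Ten K) (hD : Window D) :
    Module.finrank K (tanSp D) = 11 := by
  sorry

theorem charpoly_split {K V : Type*} [Field K] [AddCommGroup V] [Module K V]
    [FiniteDimensional K V] (C : V →ₗ[K] V) (T : Submodule K V) (hC : ∀ v, C v ∈ T)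
    (hT : Module.finrank K T = 11) (hV : Module.finrank K V = 21) :
    ∃ χ : Polynomial K, χ.Monic ∧ χ.natDegree = 11 ∧ C.charpoly = Polynomial.X ^ 10 * χ ∧
      (∀ τ ∈ T, Polynomial.aeval C χ τ = 0) ∧
      (χ.coeff 0 = 0 → ∃ τ ∈ T, τ ≠ 0 ∧ C τ = 0) := by
  sorry

theorem continuousAt_charpoly {Y : Type*} [TopologicalSpace Y]
    (C : Y → ((Idx → ℚ_[2]) →ₗ[ℚ_[2]] (Idx → ℚ_[2]))) (y : Y)
    (h : ∀ p q, ContinuousAt (fun x => C x (Pi.single q 1) p) y) (i : ℕ) :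
    ContinuousAt (fun x => (C x).charpoly.coeff i) y := by
  sorry

theorem eig_pow {K M : Type*} [Field K] [Field M] [Algebra K M] [IsAlgClosed M]
    (B : (Idx → K) →ₗ[K] (Idx → K)) (χ : Polynomial K) (e : ℕ)
    (h : B ^ e * Polynomial.aeval B χ = 0) (n : ℕ) (hn : 0 < n) (z : M)
    (hz : Polynomial.aeval z (B ^ n).charpoly = 0) :
    z = 0 ∨ ∃ w : M, Polynomial.aeval w χ = 0 ∧ z = w ^ n := by
  sorry

/-! ## CQ-7: Newton polygons -/

theorem slope_root {s : ℕ} {χ : Polynomial ℚ_[2]} (hχ : Slope s χ) (z : PadicAlgCl 2)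
    (hz : Polynomial.aeval z χ = 0) : ‖z‖ ^ 11 = (1 / 2 : ℝ) ^ s := by
  sorry

theorem slope_of_roots {s : ℕ} {χ : Polynomial ℚ_[2]} (hm : χ.Monic) (hd : χ.natDegree = 11)
    (h : ∀ z : PadicAlgCl 2, Polynomial.aeval z χ = 0 → ‖z‖ ^ 11 = (1 / 2 : ℝ) ^ s) :
    Slope s χ := by
  sorry

theorem slope_irreducible {s : ℕ} (hs : ¬ 11 ∣ s) {χ : Polynomial ℚ_[2]} (hχ : Slope s χ) :
    Irreducible χ := by
  sorry

theorem slope_ratio {s : ℕ} (hs : ¬ 11 ∣ s) {χ : Polynomial ℚ_[2]} (hχ : Slope s χ)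
    (h10 : χ.coeff 10 ≠ 0) (μ : Fin 11 → PadicAlgCl 2) (hμ : Function.Injective μ)
    (hroot : ∀ z : PadicAlgCl 2, Polynomial.aeval z χ = 0 ↔ ∃ i, μ i = z) (N : ℕ) (hN : 0 < N) :
    ¬ ∀ i j, μ i ^ N = μ j ^ N := by
  sorry

/-! ## CQ-8: the base point -/

theorem window_D0 (K : Type*) [Field K] [CharZero K] : Window (D0 K) := by
  sorry

theorem shift_D0 (K : Type*) [Ring K] : shift (D0 K) = D0 K := by
  sorry

theorem isStep_D0 (K : Type*) [Field K] [CharZero K] (τ : Idx → K) :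
    IsStep (D0 K) τ (fun p => ∑ q, (Bz p q : K) * τ q) := by
  sorry

theorem third_F0 : third F0 = D0 ℚ := by
  sorry

theorem slope_chi0 : Slope 3 (chi0.map (Int.castRingHom ℚ_[2])) := by
  sorry

theorem Bz_annih : Bz ^ 3 * Polynomial.aeval Bz chi0 = 0 := by
  sorry

theorem Bz_even (p q : Idx) : 2 ∣ (Bz ^ 10) p q := by
  sorry

theorem Bz_trace : (Bz ^ 10).trace ≠ 0 := by
  sorry

theorem det_J0 : J0.det ≠ 0 := by
  sorry

/-! ## CQ-9: algebraic points -/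

theorem alg_of_jac {K E ι : Type*} [Field K] [CharZero K] [Field E] [Algebra K E] [Fintype ι]
    [DecidableEq ι] (G : ι → MvPolynomial ι K) (x : ι → E)
    (hx : ∀ i, ∃ c : K, aeval x (G i) = algebraMap K E c)
    (hJ : (Matrix.of fun i j => aeval x (pderiv j (G i))).det ≠ 0) (i : ι) :
    IsAlgebraic K (x i) := by
  sorry

theorem open_at {ι : Type*} [Fintype ι] [DecidableEq ι] (G : ι → MvPolynomial ι ℚ_[2])
    (x : ι → ℚ_[2]) (hJ : (Matrix.of fun i j => eval x (pderiv j (G i))).det ≠ 0) :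
    Filter.map (fun y i => eval y (G i)) (𝓝 x) = 𝓝 (fun i => eval x (G i)) := by
  sorry

/-- Combination of the two previous statements. -/
theorem alg_inverse {K ι : Type*} [Field K] [CharZero K] [Algebra K ℚ_[2]] [Fintype ι]
    [DecidableEq ι] (G : ι → MvPolynomial ι K) (x : ι → ℚ_[2])
    (hJ : (Matrix.of fun i j => aeval x (pderiv j (G i))).det ≠ 0) (U : Set (ι → ℚ_[2]))
    (hU : U ∈ 𝓝 x) : ∃ W ∈ 𝓝 (fun i => aeval x (G i)), ∀ z : ι → K,
      (fun i => algebraMap K ℚ_[2] (z i)) ∈ W → ∃ y ∈ U,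
        (∀ i, aeval y (G i) = algebraMap K ℚ_[2] (z i)) ∧ ∀ i, IsAlgebraic K (y i) := by
  sorry

/-! ## CQ-10: planes in the cubic near the given one (from `alg_inverse`) -/

theorem exists_pts {K : Type*} [Field K] [CharZero K] [Algebra K ℚ_[2]] (D : Ten K)
    (hD : Window D) (ε : ℝ) (hε : 0 < ε) : ∃ x : Idx → ℚ_[2],
      (∀ q, IsAlgebraic K (x q)) ∧ Pl D x ∧ x ≠ 0 ∧ ‖x‖ < ε := by
  sorry

/-! ## CQ-11: the frame of a periodic plane (from `alg_inverse` and `det_J0`) -/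

theorem exists_frame (ε : ℝ) (hε : 0 < ε) : ∃ δ > 0, ∀ D : Ten ℚ,
    (∀ i j k, ‖(D i j k : ℚ_[2]) - D0 ℚ_[2] i j k‖ < δ) →
    ∃ Γ : Fin 10 × Fin 9 → ℚ_[2], (∀ p, ‖Γ p‖ < ε) ∧ (∀ p, IsAlgebraic ℚ (Γ p)) ∧
      ∀ p, kill D Γ p = 0 := by
  sorry

theorem frame_near (ε : ℝ) (hε : 0 < ε) : ∃ δ > 0, ∀ (D : Ten ℚ) (Γ : Fin 10 × Fin 9 → ℚ_[2]),
    (∀ i j k, ‖(D i j k : ℚ_[2]) - D0 ℚ_[2] i j k‖ < δ) → (∀ p, ‖Γ p‖ < δ) →
    (∀ i j k, ‖frT D (frame Γ) i j k - D0 ℚ_[2] i j k‖ < ε) ∧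
      (Matrix.of (frame Γ)).det ≠ 0 := by
  sorry

theorem window_near : ∃ ε > 0, ∀ D : Ten ℚ_[2], (∀ i j k, D i j k = D j i k) →
    (∀ i j k, D i j k = D i k j) → (∀ i j k, ‖D i j k - D0 ℚ_[2] i j k‖ < ε) →
    (∀ (l : Fin 10) (o : Fin 9), D l (l + (mon9 o).1) (l + (mon9 o).2) = 0) →
    ∀ n : ℕ, Window (shift^[n] D) := by
  sorry

/-! ## CQ-12: cubic forms and their third derivatives -/

theorem third_swap12 {K : Type*} [CommRing K] (F : MvPolynomial (Fin 10) K) (i j k : Fin 10) :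
    third F i j k = third F j i k := by
  sorry

theorem third_swap23 {K : Type*} [CommRing K] (F : MvPolynomial (Fin 10) K) (i j k : Fin 10) :
    third F i j k = third F i k j := by
  sorry

theorem cubic_third {K : Type*} [CommRing K] (F : MvPolynomial (Fin 10) K)
    (hF : F.IsHomogeneous 3) : cubic (third F) = C 6 * F := by
  sorry

theorem cubic_frT {K L : Type*} [CommRing K] [CommRing L] [Algebra K L] (D : Ten K)
    (g : Fin 10 → Fin 10 → L) : cubic (frT D g) = inFrame g (cubic D) := by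
  sorry

end Pool.Agent.Helper76.CQ.St
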