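import Pool.Agent.Helper76.CQ.Desc

/-!
# Stubs of project CQ, second part: descent to the rational numbers
-/

namespace Pool.Agent.Helper76.CQ.St

open MvPolynomial Pool.Agent.Helper76.CY Pool.Agent.Helper76.CQ

/-! ## CQ-D1: change of charts for points with values in a ring -/

theorem row_chart {T : Type*} [CommRing T] (R : Fin 3 → Fin 10 → T) (h : IsUnit (blk R).det)
    (i : Fin 3) (j : Fin 10) : row (chart R) i j = ∑ l, (blk R)⁻¹ i l * R l j := by
  sorry

theorem chg_inv {T : Type*} [CommRing T] (g : Matrix (Fin 10) (Fin 10) T) (hg : IsUnit g.det)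
    (y : Idx → T) (h : IsUnit (dch g y)) : dch g⁻¹ (chg g y) * dch g y = 1 ∧
      chg g⁻¹ (chg g y) = y := by
  sorry

theorem pl_chg {K T : Type*} [CommRing K] [CommRing T] [Algebra K T] (D : Ten K)
    (g : Matrix (Fin 10) (Fin 10) T) (y : Idx → T) (h : IsUnit (dch g y))
    (hp : Pl (frT D g : Ten T) y) : Pl D (chg g y) := by
  sorry

theorem pl_chg_inv {K T : Type*} [CommRing K] [CommRing T] [Algebra K T] (D : Ten K)
    (g : Matrix (Fin 10) (Fin 10) T) (hg : IsUnit g.det) (z : Idx → T)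
    (h : IsUnit (dch g⁻¹ z)) (hp : Pl D z) : Pl (frT D g : Ten T) (chg g⁻¹ z) := by
  sorry

/-! ## CQ-D2: numerators -/

theorem dch_map {T T' : Type*} [CommRing T] [CommRing T'] (φ : T →+* T')
    (g : Matrix (Fin 10) (Fin 10) T) (y : Idx → T) :
    φ (dch g y) = dch (g.map φ) (fun q => φ (y q)) := by
  sorry

theorem chg_map {T T' : Type*} [CommRing T] [CommRing T'] (φ : T →+* T')
    (g : Matrix (Fin 10) (Fin 10) T) (y : Idx → T) (h : IsUnit (dch g y)) (q : Idx) :
    φ (chg g y q) = chg (g.map φ) (fun q => φ (y q)) q := by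
  sorry

/-- The polynomial `det` of the left block of `(1 | X) g`. -/
theorem aeval_dch {L T : Type*} [CommRing L] [CommRing T] [Algebra L T]
    (g : Matrix (Fin 10) (Fin 10) L) (y : Idx → T) :
    aeval y (dch (g.map (C : L →+* MvPolynomial Idx L)) X) = dch (g.map (algebraMap L T)) y := by
  sorry

theorem numer {K L : Type} [Field K] [Field L] [Algebra K L] (g : Matrix (Fin 10) (Fin 10) L)
    (f : MvPolynomial Idx K) : ∃ (k : ℕ) (G : MvPolynomial Idx L), ∀ (T : Type) [CommRing T]
      [Algebra K T] [Algebra L T] [IsScalarTower K L T] (y : Idx → T),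
      IsUnit (dch (g.map (algebraMap L T)) y) → aeval y G =
        dch (g.map (algebraMap L T)) y ^ k * aeval (chg (g.map (algebraMap L T)) y) f := by
  sorry

/-! ## CQ-D3: descent of points -/

theorem desc_points {K L E : Type} [Field K] [Field L] [Field E] [Algebra K L] [Algebra K E]
    [Algebra L E] [IsScalarTower K L E] (g : Matrix (Fin 10) (Fin 10) L)
    (P' : Ideal (MvPolynomial Idx L)) (h0 : ∀ f ∈ P', constantCoeff f = 0)
    (hg0 : dch g 0 ≠ 0) (y : Idx → E) (hy : ∀ G : MvPolynomial Idx L, aeval y G = 0 ↔ G ∈ P')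
    (hpts : ∀ f, f ∉ P' → ∃ u : Idx → L, eval u f ≠ 0 ∧ ∀ G ∈ P', eval u G = 0) :
    IsUnit (dch (g.map (algebraMap L E)) y) ∧
      (∀ f : MvPolynomial Idx K, aeval (chg (g.map (algebraMap L E)) y) f ≠ 0 →
        ∃ z : Idx → L, aeval z f ≠ 0 ∧ ∀ h : MvPolynomial Idx K,
          aeval (chg (g.map (algebraMap L E)) y) h = 0 → aeval z h = 0) ∧
      ∀ f : MvPolynomial Idx K, aeval (chg (g.map (algebraMap L E)) y) f = 0 →
        aeval (chg g 0) f = 0 := by
  sorry

/-! ## CQ-D4: descent of the component -/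

/-- If `S f` is in the ideal generated over `L` for some `S` with `S(z) ≠ 0`, then the same holds
over `K`. -/
theorem desc_mem {K L ι : Type*} [Field K] [Field L] [Algebra K L] (I : Ideal (MvPolynomial ι K))
    (z : ι → L) (f : MvPolynomial ι K) (S : MvPolynomial ι L) (hS : eval z S ≠ 0)
    (h : S * MvPolynomial.map (algebraMap K L) f ∈
      I.map (MvPolynomial.map (algebraMap K L) : MvPolynomial ι K →+* MvPolynomial ι L)) :
    ∃ s : MvPolynomial ι K, aeval z s ≠ 0 ∧ s * f ∈ I := by
  sorry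

/-- The ideal of the variety of planes over a larger field. -/
theorem fano_map {K L : Type*} [Field K] [Field L] [Algebra K L]
    (F : MvPolynomial (Fin 10) K) : (fanoIdeal F).map
      (MvPolynomial.map (algebraMap K L) : MvPolynomial Idx K →+* MvPolynomial Idx L) =
      fanoIdeal (MvPolynomial.map (algebraMap K L) F) := by
  sorry

theorem desc_comp {K L E : Type} [Field K] [CharZero K] [Field L] [CharZero L] [Field E]
    [Algebra K L] [Algebra K E] [Algebra L E] [IsScalarTower K L E] (D : Ten K)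
    (h12 : ∀ i j k, D i j k = D j i k) (h23 : ∀ i j k, D i j k = D i k j)
    (g : Matrix (Fin 10) (Fin 10) L) (hg : g.det ≠ 0) (hg0 : dch g 0 ≠ 0) (y : Idx → E)
    (hyu : IsUnit (dch (g.map (algebraMap L E)) y))
    (hy : ∀ G : MvPolynomial Idx L, aeval y G = 0 ↔
      G ∈ compIdeal (fanoIdeal (cubic (frT D g : Ten L))))
    (Q : Ideal (MvPolynomial Idx K)) (hQ : Q.IsPrime) (hDQ : fanoIdeal (cubic D) ≤ Q)
    (hQ0 : ∀ f ∈ Q, aeval (chg g 0) f = 0) (f : MvPolynomial Idx K)
    (hf : aeval (chg (g.map (algebraMap L E)) y) f = 0) : f ∈ Q := by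
  sorry

/-! ## CQ-D5: descent of algebraic independence -/

theorem desc_indep {K L E : Type} [Field K] [Field L] [Field E] [Algebra K L] [Algebra K E]
    [Algebra L E] [IsScalarTower K L E] [Algebra.IsAlgebraic K L]
    (g : Matrix (Fin 10) (Fin 10) L) (hg : g.det ≠ 0) (y : Idx → E)
    (hyu : IsUnit (dch (g.map (algebraMap L E)) y)) (v : Fin 11 → E)
    (hv : AlgebraicIndependent L v) (hvy : ∀ i, v i ∈ Algebra.adjoin L (Set.range y)) :
    ∃ k : Fin 11 → Idx, AlgebraicIndependent K
      (fun i => chg (g.map (algebraMap L E)) y (k i)) := by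
  sorry

/-! ## CQ-D6: frames near the standard frame -/

theorem frame_dch : ∃ δ > 0, ∀ Γ : Fin 10 × Fin 9 → ℚ_[2], (∀ p, ‖Γ p‖ < δ) →
    dch (Matrix.of (frame Γ)) 0 ≠ 0 := by
  sorry

end Pool.Agent.Helper76.CQ.St
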